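import Mathlib

/-! MS, step B9 (Q): the weight inequality between the two halves of the self-complementary part. -/

set_option autoImplicit false

open Finset

namespace MS.H99

section
variable (v : ℕ → ℝ) (c : ℕ)

theorem B9_pair (a h : ℕ) (hc : c = a + h)
    (K1 : ∀ j, 1 ≤ j → j ≤ h → v (c + 1) * (v (c - j) + v (c + j)) ≤
      v c * (v (c - j + 1) + v (c + j + 1)))
    (i : ℕ) (hi : i ≤ h) :
    0 ≤ v c * (v (a + i + 1) + v (a + (2 * h - i) + 1)) -
      v (c + 1) * (v (a + (2 * h - i)) + v (a + i)) := by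
  rcases Nat.eq_or_lt_of_le hi with rfl | hlt
  · have e : 2 * i - i = i := by omega
    rw [e, ← hc]
    have : v c * (v (c + 1) + v (c + 1)) - v (c + 1) * (v c + v c) = 0 := by ring
    rw [this]
  · have h1 := K1 (h - i) (by omega) (by omega)
    have e1 : c - (h - i) = a + i := by omega
    have e2 : c + (h - i) = a + (2 * h - i) := by omega
    rw [e1, e2] at h1
    linarith

theorem B9
    (H0 : ∀ x y z, 0 < v x → 0 < v y → x ≤ z → z ≤ y → 0 < v z)
    (a h : ℕ) (hc : c = a + h) (hv : 0 < v (c + 1))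
    (K1 : ∀ j, 1 ≤ j → j ≤ h → v (c + 1) * (v (c - j) + v (c + j)) ≤
      v c * (v (c - j + 1) + v (c + j + 1)))
    (K3 : ∀ j, 1 ≤ j → j ≤ h → v (c + 1) * v (c + j) ≤ v c * v (c - j + 1))
    (J : Finset ℕ) (hJ : #J = 2 * h) (U0 U1 : Finset (Finset ℕ)) (h01 : U0 ⊆ U1)
    (P : ∀ z ∈ U1, z ∉ U0 → #z = h ∨ (v (a + #z) = 0 ∧ 0 < v (a + #z + 1))) :
    v (c + 1) * ∑ z ∈ J.powerset with z ∈ U0 ∧ J \ z ∈ U1, v (a + #z) ≤
      v c * ∑ z ∈ J.powerset with z ∈ U1 ∧ J \ z ∈ U0, v (a + #z + 1) := by
  classical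
  set I := J.powerset.filter (fun z => z ∈ U1 ∧ J \ z ∈ U0) with hI
  have hsub : ∀ z ∈ I, z ⊆ J := fun z hz => mem_powerset.1 (mem_filter.1 hz).1
  have hcard : ∀ z, z ⊆ J → #(J \ z) = 2 * h - #z := fun z hz => by
    rw [card_sdiff_of_subset hz, hJ]
  have hle : ∀ z, z ⊆ J → #z ≤ 2 * h := fun z hz => hJ ▸ card_le_card hz
  have key : ∑ z ∈ J.powerset with z ∈ U0 ∧ J \ z ∈ U1, v (a + #z) =
      ∑ z ∈ I, v (a + (2 * h - #z)) := by
    refine Finset.sum_nbij' (fun z => J \ z) (fun z => J \ z) ?_ ?_ ?_ ?_ ?_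
    · intro z hz
      rw [mem_filter, mem_powerset] at hz
      rw [hI, mem_filter, mem_powerset, Finset.sdiff_sdiff_eq_self hz.1]
      exact ⟨sdiff_subset, hz.2.2, hz.2.1⟩
    · intro z hz
      rw [hI, mem_filter, mem_powerset] at hz
      rw [mem_filter, mem_powerset, Finset.sdiff_sdiff_eq_self hz.1]
      exact ⟨sdiff_subset, hz.2.2, hz.2.1⟩
    · intro z hz
      rw [mem_filter, mem_powerset] at hz
      exact Finset.sdiff_sdiff_eq_self hz.1
    · intro z hz
      exact Finset.sdiff_sdiff_eq_self (hsub z hz)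
    · intro z hz
      rw [mem_filter, mem_powerset] at hz
      have h1 := hcard z hz.1
      have h2 := hle z hz.1
      congr 2
      omega
  rw [key, mul_sum, mul_sum, ← sub_nonneg, ← sum_sub_distrib]
  rw [← sum_filter_add_sum_filter_not I (fun z => z ∈ U0)]
  refine add_nonneg ?_ (sum_nonneg fun z hz => ?_)
  · set I0 := I.filter (fun z => z ∈ U0) with hI0
    have hswap : ∑ z ∈ I0, (v c * v (a + #z + 1) - v (c + 1) * v (a + (2 * h - #z))) =
        ∑ z ∈ I0, (v c * v (a + (2 * h - #z) + 1) - v (c + 1) * v (a + #z)) := by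
      have hmem : ∀ z ∈ I0, J \ z ∈ I0 := by
        intro z hz
        rw [hI0, mem_filter] at hz
        obtain ⟨hz1, hz2⟩ := hz
        have hz3 := hsub z hz1
        rw [hI, mem_filter, mem_powerset] at hz1
        rw [hI0, mem_filter, hI, mem_filter, mem_powerset, Finset.sdiff_sdiff_eq_self hz3]
        exact ⟨⟨sdiff_subset, h01 hz1.2.2, hz2⟩, hz1.2.2⟩
      have hsub0 : ∀ z ∈ I0, z ⊆ J := fun z hz => hsub z (mem_filter.1 hz).1
      refine Finset.sum_nbij' (fun z => J \ z) (fun z => J \ z) hmem hmem ?_ ?_ ?_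
      · intro z hz
        exact Finset.sdiff_sdiff_eq_self (hsub0 z hz)
      · intro z hz
        exact Finset.sdiff_sdiff_eq_self (hsub0 z hz)
      · intro z hz
        have h1 := hcard z (hsub0 z hz)
        have h2 := hle z (hsub0 z hz)
        have h3 : 2 * h - #(J \ z) = #z := by omega
        rw [h3, h1]
    have hsum : 0 ≤ ∑ z ∈ I0, ((v c * v (a + #z + 1) - v (c + 1) * v (a + (2 * h - #z))) +
        (v c * v (a + (2 * h - #z) + 1) - v (c + 1) * v (a + #z))) := by
      refine sum_nonneg fun z hz => ?_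
      have h2 := hle z (hsub z (mem_filter.1 hz).1)
      rcases le_total #z h with h3 | h3
      · have := B9_pair v c a h hc K1 #z h3
        linarith
      · have := B9_pair v c a h hc K1 (2 * h - #z) (by omega)
        have e : 2 * h - (2 * h - #z) = #z := by omega
        rw [e] at this
        linarith
    rw [sum_add_distrib, ← hswap] at hsum
    linarith
  · obtain ⟨hz1, hz2⟩ := mem_filter.1 hz
    have hzJ := hsub z hz1
    rw [hI, mem_filter] at hz1
    have h2 := hle z hzJ
    rcases P z hz1.2.1 hz2 with h3 | ⟨h3, h4⟩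
    · rw [h3]
      have e : 2 * h - h = h := by omega
      rw [e, ← hc]
      have : v c * v (c + 1) - v (c + 1) * v c = 0 := by ring
      rw [this]
    · rcases lt_trichotomy #z h with h5 | h5 | h5
      · have h6 := K3 (h - #z) (by omega) (by omega)
        have e1 : c - (h - #z) + 1 = a + #z + 1 := by omega
        have e2 : c + (h - #z) = a + (2 * h - #z) := by omega
        rw [e1, e2] at h6
        linarith
      · rw [h5]
        have e : 2 * h - h = h := by omega
        rw [e, ← hc]
        have : v c * v (c + 1) - v (c + 1) * v c = 0 := by ring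
        rw [this]
      · exfalso
        have := H0 (c + 1) (a + #z + 1) (a + #z) hv h4 (by omega) (by omega)
        rw [h3] at this
        exact lt_irrefl _ this

end
end MS.H99
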