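import Pool.Agent.Helper89.MS.Sheet
import Pool.Agent.Helper99.MS.B9

/-! MS, package B9 (Q): the frozen statement from the core `MS.H99.B9`. -/

set_option autoImplicit false

open Finset

namespace MS.H99

theorem b9 (UV : UVStm) : B9Stm := by
  classical
  intro t m r s L a c v F ht hH hG hS hm hL hsr ha hc hv hP
  obtain ⟨uv1, -, -, uv4, -⟩ := UV t m L v F hG (by omega) hS
  set U := Ulev L m F a with hU
  set J := Ico (L + 1) (m - 1) with hJ
  have hτJ : m - 1 ∉ J := by simp [hJ]
  have hI : Ico (L + 1) m = insert (m - 1) J := by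
    ext x
    simp only [hJ, mem_insert, mem_Ico]
    omega
  have hJc : #J = 2 * (r - 1 - s) := by
    rw [hJ, Nat.card_Ico]
    omega
  have hUsub : ∀ z ∈ U, z ⊆ Ico (L + 1) m := fun z hz => by
    rw [hU, Ulev, mem_filter, mem_powerset] at hz
    exact hz.1
  set U0 := J.powerset.filter (fun z => z ∈ U) with hU0
  set U1 := J.powerset.filter (fun z => insert (m - 1) z ∈ U) with hU1
  have hJI : J ⊆ Ico (L + 1) m := by rw [hI]; exact subset_insert _ _
  have h01 : U0 ⊆ U1 := by
    intro z hz
    rw [hU0, mem_filter, mem_powerset] at hz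
    rw [hU1, mem_filter, mem_powerset]
    refine ⟨hz.1, uv4 a z hz.2 _ (subset_insert _ _) ?_⟩
    rw [hI]
    exact insert_subset_insert _ hz.1
  have hPP : ∀ z ∈ U1, z ∉ U0 →
      #z = (r - 1 - s) ∨ (v (a + #z) = 0 ∧ 0 < v (a + #z + 1)) := by
    intro z hz1 hz0
    rw [hU1, mem_filter, mem_powerset] at hz1
    obtain ⟨hzJ, hz1⟩ := hz1
    have hzU : z ∉ U := fun h => hz0 (by rw [hU0, mem_filter, mem_powerset]; exact ⟨hzJ, h⟩)
    have haL : a ≤ L := by omega
    have hA : range a ⊆ range L := range_subset_range.2 haL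
    have hmem := uv1 a _ hz1 (range a) hA (card_range a)
    have hτz : m - 1 ∉ z := fun h => hτJ (hzJ h)
    have hτA : m - 1 ∉ range a := by rw [mem_range]; omega
    have her : (range a ∪ insert (m - 1) z).erase (m - 1) = range a ∪ z := by
      ext x
      simp only [mem_erase, mem_union, mem_insert]
      constructor
      · rintro ⟨h1, h2 | h2 | h2⟩
        · exact Or.inl h2
        · exact absurd h2 h1
        · exact Or.inr h2
      · rintro (h | h)
        · exact ⟨fun e => hτA (e ▸ h), Or.inl h⟩
        · exact ⟨fun e => hτz (e ▸ h), Or.inr (Or.inr h)⟩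
    have hnot : range a ∪ z ∉ F := by
      intro h
      apply hzU
      rw [hU, Ulev, mem_filter, mem_powerset]
      exact ⟨hzJ.trans hJI, range a, hA, card_range a, h⟩
    have hdis : Disjoint (range a) (insert (m - 1) z) := by
      rw [Finset.disjoint_left]
      intro x hx hx2
      rw [mem_range] at hx
      rw [mem_insert] at hx2
      rcases hx2 with h | h
      · omega
      · have := hzJ h
        rw [hJ, mem_Ico] at this
        omega
    have hcard : #(range a ∪ insert (m - 1) z) = a + #z + 1 := by
      rw [card_union_of_disjoint hdis, card_range, card_insert_of_notMem hτz]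
      omega
    have hNN : range a ∪ insert (m - 1) z ∈ NN m F := by
      rw [NN, mem_filter]
      exact ⟨hmem, mem_union_right _ (mem_insert_self _ _), by rw [her]; exact hnot⟩
    rcases hP _ hNN with h | ⟨h1, h2⟩
    · left
      rw [hcard] at h
      omega
    · right
      rw [hcard] at h1 h2
      exact ⟨by simpa using h1, h2⟩
  have core := B9 v c hH.H0 a (r - 1 - s) (by omega) hv
    (fun j h1 h2 => hH.K1 r c j ht hm hc h1 (by omega) hv)
    (fun j h1 h2 => hH.K3 r c j ht hm hc h1 (by omega) hv) J hJc U0 U1 h01 hPP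
  have e1 : wz v a (Y1 L m F a \ ZZ L m F a) =
      ∑ z ∈ J.powerset with z ∈ U0 ∧ J \ z ∈ U1, v (a + #z) := by
    unfold wz
    refine Finset.sum_congr ?_ fun _ _ => rfl
    ext z
    simp only [ZZ, Y1, mem_sdiff, mem_filter, mem_powerset, hU0, hU1]
    constructor
    · rintro ⟨⟨h1, h2⟩, h3⟩
      have h4 : m - 1 ∉ z := fun h => h3 ⟨⟨h1, h2⟩, h⟩
      have h5 : z ⊆ J := by
        intro x hx
        have := hUsub z h1 hx
        rw [hI, mem_insert] at this
        rcases this with h | h
        · exact absurd (h ▸ hx) h4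
        · exact h
      refine ⟨h5, ⟨h5, h1⟩, sdiff_subset, ?_⟩
      have : insert (m - 1) (J \ z) = Ico (L + 1) m \ z := by
        rw [hI, insert_sdiff_of_notMem _ h4]
      rw [this]
      exact h2
    · rintro ⟨h5, ⟨-, h1⟩, -, h2⟩
      have h4 : m - 1 ∉ z := fun h => hτJ (h5 h)
      have : insert (m - 1) (J \ z) = Ico (L + 1) m \ z := by
        rw [hI, insert_sdiff_of_notMem _ h4]
      rw [this] at h2
      exact ⟨⟨h1, h2⟩, fun h => h4 h.2⟩
  have e2 : wz v a (ZZ L m F a) =
      ∑ z ∈ J.powerset with z ∈ U1 ∧ J \ z ∈ U0, v (a + #z + 1) := by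
    unfold wz
    refine Finset.sum_nbij' (fun z => z.erase (m - 1)) (fun z => insert (m - 1) z) ?_ ?_ ?_ ?_ ?_
    · intro z hz
      simp only [ZZ, Y1, mem_filter] at hz
      obtain ⟨⟨h1, h2⟩, h3⟩ := hz
      simp only [mem_filter, mem_powerset, hU0, hU1]
      have h5 : z.erase (m - 1) ⊆ J := by
        intro x hx
        rw [mem_erase] at hx
        have := hUsub z h1 hx.2
        rw [hI, mem_insert] at this
        rcases this with h | h
        · exact absurd h hx.1
        · exact h
      refine ⟨h5, ⟨h5, ?_⟩, sdiff_subset, ?_⟩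
      · rw [insert_erase h3]
        exact h1
      · have : J \ z.erase (m - 1) = Ico (L + 1) m \ z := by
          ext x
          simp only [hI, mem_sdiff, mem_erase, mem_insert]
          constructor
          · rintro ⟨g1, g2⟩
            refine ⟨Or.inr g1, fun g => g2 ⟨fun e => hτJ (e ▸ g1), g⟩⟩
          · rintro ⟨g1, g2⟩
            rcases g1 with g | g
            · exact absurd (g ▸ h3) g2
            · exact ⟨g, fun h => g2 h.2⟩
        rw [this]
        exact h2
    · intro z hz
      simp only [mem_filter, mem_powerset, hU0, hU1] at hz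
      obtain ⟨h5, ⟨-, h1⟩, -, h2⟩ := hz
      simp only [ZZ, Y1, mem_filter]
      refine ⟨⟨h1, ?_⟩, mem_insert_self _ _⟩
      have : Ico (L + 1) m \ insert (m - 1) z = J \ z := by
        ext x
        simp only [hI, mem_sdiff, mem_insert]
        constructor
        · rintro ⟨g1, g2⟩
          refine ⟨?_, fun g => g2 (Or.inr g)⟩
          rcases g1 with g | g
          · exact absurd (Or.inl g) g2
          · exact g
        · rintro ⟨g1, g2⟩
          refine ⟨Or.inr g1, ?_⟩
          rintro (g | g)
          · exact hτJ (g ▸ g1)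
          · exact g2 g
      rw [this]
      exact h2
    · intro z hz
      simp only [ZZ, Y1, mem_filter] at hz
      exact insert_erase hz.2
    · intro z hz
      simp only [mem_filter, mem_powerset] at hz
      exact erase_insert (fun h => hτJ (hz.1 h))
    · intro z hz
      simp only [ZZ, Y1, mem_filter] at hz
      have h1 := card_erase_of_mem hz.2
      have h2 : 0 < #z := card_pos.2 ⟨_, hz.2⟩
      congr 1
      omega
  rw [e1, e2]
  exact core

end MS.H99
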