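import Pool.Agent.Helper89.MS.Sheet

/-! MS, package B10: full symmetry. -/

set_option autoImplicit false

open Finset

namespace MS.H99

/-- an `a`-subset of `{0..L-1}` which meets `C` in few elements -/
theorem exists_far (L a : ℕ) (haL : a ≤ L) (C : Finset ℕ) (hC : C ⊆ range L) (t : ℕ)
    (ht : 1 ≤ t) (h2 : 2 * a = L + t) (hCa : #C < a) :
    ∃ A, A ⊆ range L ∧ #A = a ∧ #(A ∩ C) < t := by
  have h1 : #(range L \ C) = L - #C := by
    rw [card_sdiff_of_subset hC, card_range]
  rcases le_or_gt a #(range L \ C) with h | h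
  · obtain ⟨A, hA1, hA2⟩ := exists_subset_card_eq h
    refine ⟨A, hA1.trans sdiff_subset, hA2, ?_⟩
    have : A ∩ C = ∅ := by
      ext x
      simp only [mem_inter, notMem_empty, iff_false]
      rintro ⟨h3, h4⟩
      have := hA1 h3
      rw [mem_sdiff] at this
      exact this.2 h4
    rw [this, card_empty]
    omega
  · obtain ⟨A, hA1, hA2, hA3⟩ := exists_subsuperset_card_eq (sdiff_subset : range L \ C ⊆ range L)
      h.le (by rw [card_range]; exact haL)
    refine ⟨A, hA2, hA3, ?_⟩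
    have h5 : A ∩ C = A \ (range L \ C) := by
      ext x
      simp only [mem_inter, mem_sdiff, not_and, not_not]
      constructor
      · rintro ⟨h3, h4⟩
        exact ⟨h3, fun _ => h4⟩
      · rintro ⟨h3, h4⟩
        exact ⟨h3, h4 (hA2 h3)⟩
    rw [h5, card_sdiff_of_subset hA1, hA3, h1]
    omega

theorem b10 (UV : UVStm) (B7 : B7Stm) (B8 : B8Stm) (B9 : B9Stm) : B10Stm := by
  classical
  intro t m r c v F ht hH hG hm hr hc hv hI1 hP hN
  by_contra hnot
  have nn := hH.nn
  -- the largest L with symmetry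
  have hex : ∃ n, ¬ Sym n F := ⟨m, hnot⟩
  obtain ⟨L, hLm, hSL, hSL'⟩ : ∃ L, L < m ∧ Sym L F ∧ ¬ Sym (L + 1) F := by
    have h1 := Nat.find_spec hex
    have h2 : Nat.find hex ≤ m := Nat.find_min' hex hnot
    have h0 : Nat.find hex ≠ 0 := by
      intro h
      rw [h] at h1
      exact h1 (fun S _ i j hi _ _ _ => absurd hi (Nat.not_lt_zero _))
    obtain ⟨L, hL⟩ := Nat.exists_eq_succ_of_ne_zero h0
    refine ⟨L, by omega, ?_, ?_⟩
    · have := Nat.find_min hex (m := L) (by omega)
      exact not_not.1 this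
    · rw [hL] at h1
      exact h1
  obtain ⟨uv1, uv2, uv3, uv4, uv5, uv6, uv7⟩ := UV t m L v F hG hLm hSL
  obtain ⟨a, ha1, haL, y, hyU, hyV⟩ := uv6 hSL'
  have h2a : 2 * a = L + t := B7 t m L a v F ht nn hG hLm hSL ha1 ⟨y, hyU, hyV⟩
  have hother : ∀ b, 1 ≤ b → b ≠ a → ∀ y ∈ Ulev L m F b, y ∈ Vlev L m F b := by
    intro b hb hba z hz
    by_contra hzV
    have := B7 t m L b v F ht nn hG hLm hSL hb ⟨z, hz, hzV⟩
    omega
  obtain ⟨hVU, hJ⟩ := B8 t m L a v F (by omega) nn hG hLm hSL ha1 haL h2a hother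
  obtain ⟨s, hs⟩ : ∃ s, L = t + 2 * s := ⟨a - t, by omega⟩
  have has : a = t + s := by omega
  have hsr : s < r := by omega
  have hQ := B9 t m r s L a c v F ht hH hG hSL hm hs hsr has hc hv hP
  set U := Ulev L m F a with hU
  set V := Vlev L m F a with hV
  have nnwz : ∀ Z : Finset (Finset ℕ), 0 ≤ wz v a Z := fun Z => sum_nonneg fun z _ => nn _
  have hZY : ZZ L m F a ⊆ Y1 L m F a := filter_subset _ _
  have hYs : wz v a (Y1 L m F a) = wz v a (Y1 L m F a \ ZZ L m F a) + wz v a (ZZ L m F a) := by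
    unfold wz
    rw [sum_sdiff hZY]
  have hUUV : wz v a V ≤ wz v a (UU L m F a) :=
    sum_le_sum_of_subset_of_nonneg hVU fun _ _ _ => nn _
  set wY := wz v a (Y1 L m F a) with hwY
  set wZ := wz v a (ZZ L m F a) with hwZ
  set wU := wz v a (UU L m F a) with hwU
  set wV := wz v a V with hwV
  set wR := wz v a (Y1 L m F a \ ZZ L m F a) with hwR
  have hZ0 : 0 ≤ wZ := nnwz _
  have hY0 : 0 ≤ wY := nnwz _
  have hR0 : 0 ≤ wR := nnwz _
  -- r w(Y1) ≤ (t + 2 r - 1) w(Z)
  have hA : (r : ℝ) * wY ≤ (r + c) * wZ := by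
    have h1 : (r : ℝ) * (v (c + 1) * wR) ≤ (r : ℝ) * (v c * wZ) :=
      mul_le_mul_of_nonneg_left hQ (Nat.cast_nonneg r)
    have h2 : ((r : ℝ) * v c) * wZ ≤ ((c : ℝ) * v (c + 1)) * wZ :=
      mul_le_mul_of_nonneg_right hI1 hZ0
    have h3 : v (c + 1) * ((r : ℝ) * wR) ≤ v (c + 1) * ((c : ℝ) * wZ) := by nlinarith
    have h4 := le_of_mul_le_mul_left h3 hv
    rw [hYs]
    nlinarith
  have hchC : ((L + 1).choose a : ℝ) * (s + 1) = (L.choose a : ℝ) * (L + 1) := by
    have h1 := Nat.choose_mul_succ_eq L a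
    have h2 : L + 1 - a = s + 1 := by omega
    rw [h2] at h1
    have h3 : ((L.choose a * (L + 1) : ℕ) : ℝ) = (((L + 1).choose a * (s + 1) : ℕ) : ℝ) := by
      rw [h1]
    push_cast at h3
    linarith
  have hc1 : (0 : ℝ) < (L + 1).choose a := by
    exact_mod_cast Nat.choose_pos (by omega : a ≤ L + 1)
  have hc2 : (0 : ℝ) < L.choose a := by
    exact_mod_cast Nat.choose_pos haL
  have hc3 : (0 : ℝ) < L.choose (a - 1) := by
    exact_mod_cast Nat.choose_pos (by omega : a - 1 ≤ L)
  have hB : (L + 1 : ℝ) * wZ ≤ (s + 1) * wY := by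
    have h1 : ((L + 1).choose a : ℝ) * wZ ≤ (L.choose a : ℝ) * wY := by
      have : 0 ≤ (L.choose (a - 1) : ℝ) * (wU - wV) :=
        mul_nonneg hc3.le (sub_nonneg.2 hUUV)
      linarith
    have h2 : (L.choose a : ℝ) * ((L + 1 : ℝ) * wZ) ≤ (L.choose a : ℝ) * ((s + 1) * wY) := by
      have h3 : ((L + 1).choose a : ℝ) * wZ * (s + 1) ≤ (L.choose a : ℝ) * wY * (s + 1) :=
        mul_le_mul_of_nonneg_right h1 (by positivity)
      calc (L.choose a : ℝ) * ((L + 1 : ℝ) * wZ) = ((L.choose a : ℝ) * (L + 1)) * wZ := by ring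
        _ = (((L + 1).choose a : ℝ) * (s + 1)) * wZ := by rw [hchC]
        _ = ((L + 1).choose a : ℝ) * wZ * (s + 1) := by ring
        _ ≤ (L.choose a : ℝ) * wY * (s + 1) := h3
        _ = (L.choose a : ℝ) * ((s + 1) * wY) := by ring
    exact le_of_mul_le_mul_left h2 hc2
  rcases hY0.lt_or_eq with hYpos | hYzero
  · -- h = 0
    have hLr : (L : ℝ) = t + 2 * s := by exact_mod_cast hs
    have hcr : (c : ℝ) = t + r - 1 := by
      have : ((c + 1 : ℕ) : ℝ) = ((t + r : ℕ) : ℝ) := by rw [hc]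
      push_cast at this
      linarith
    have hr0 : (0 : ℝ) < r := by exact_mod_cast hr
    have hineq : (r : ℝ) * (L + 1) ≤ (s + 1) * (r + c) := by
      have hrc : (0 : ℝ) ≤ r + c := by positivity
      have h1 : (r : ℝ) * wY * (L + 1) ≤ (r + c) * wZ * (L + 1) :=
        mul_le_mul_of_nonneg_right hA (by positivity)
      have h2 : (r + c : ℝ) * ((L + 1 : ℝ) * wZ) ≤ (r + c) * ((s + 1) * wY) :=
        mul_le_mul_of_nonneg_left hB hrc
      have h3 : ((r : ℝ) * (L + 1)) * wY ≤ ((s + 1) * (r + c)) * wY := by nlinarith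
      exact le_of_mul_le_mul_right h3 hYpos
    have hsr1 : r = s + 1 := by
      by_contra hne
      have h1 : s + 2 ≤ r := by omega
      have h1r : (s : ℝ) + 2 ≤ r := by exact_mod_cast h1
      have htr : (2 : ℝ) ≤ t := by exact_mod_cast ht
      rw [hLr, hcr] at hineq
      nlinarith [mul_nonneg (sub_nonneg.2 h1r) (sub_nonneg.2 htr)]
    -- the empty set is in U
    have hLm2 : L + 2 = m := by omega
    have hI : Ico (L + 1) m = {m - 1} := by
      ext x
      simp only [mem_Ico, mem_singleton]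
      omega
    have hemp : (∅ : Finset ℕ) ∈ U := by
      obtain ⟨z, hz⟩ : (Y1 L m F a).Nonempty := by
        by_contra h
        rw [not_nonempty_iff_eq_empty] at h
        rw [hwY, h] at hYpos
        simp [wz] at hYpos
      rw [Y1, mem_filter] at hz
      obtain ⟨hz1, hz2⟩ := hz
      have hz3 : z ⊆ {m - 1} := by
        have := hz1
        rw [Ulev, mem_filter, mem_powerset, hI] at this
        exact this.1
      rcases subset_singleton_iff.1 hz3 with h | h
      · rw [h] at hz1
        exact hz1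
      · rw [h, hI, sdiff_self] at hz2
        exact hz2
    have hall : ∀ A, A ⊆ range L → #A = a → A ∈ F := by
      intro A h1 h2
      have := uv1 a ∅ hemp A h1 h2
      rwa [union_empty] at this
    obtain ⟨S, hS, -⟩ := hN
    rw [NN, mem_filter] at hS
    obtain ⟨hSF, hτ, hSe⟩ := hS
    apply hSe
    -- `S` has at least `a` elements in `range L`
    have hSa : a ≤ #(S ∩ range L) := by
      by_contra hlt
      rw [not_le] at hlt
      obtain ⟨A, hA1, hA2, hA3⟩ := exists_far L a haL (S ∩ range L) inter_subset_right t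
        (by omega) h2a hlt
      have h1 := hG.ti.2 A (hall A hA1 hA2) S hSF
      have h2 : A ∩ (S ∩ range L) = A ∩ S := by
        ext x
        simp only [mem_inter]
        constructor
        · rintro ⟨g1, g2, -⟩
          exact ⟨g1, g2⟩
        · rintro ⟨g1, g2⟩
          exact ⟨g1, g2, hA1 g1⟩
      rw [h2] at hA3
      omega
    obtain ⟨A, hA1, hA2⟩ := exists_subset_card_eq hSa
    refine hG.up A (hall A (hA1.trans inter_subset_right) hA2) _ ?_ ?_
    · intro x hx
      have h1 := hA1 hx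
      rw [mem_inter, mem_range] at h1
      rw [mem_erase]
      exact ⟨by omega, h1.1⟩
    · exact (erase_subset _ _).trans (hG.ti.1 S hSF)
  · -- w(Y1) = 0
    have hZz : wZ = 0 := by
      rw [← hYzero] at hYs
      linarith
    have hUV0 : wU - wV ≤ 0 := by
      have h1 : (L.choose (a - 1) : ℝ) * (wU - wV) ≤ 0 := by
        rw [hZz, ← hYzero] at hJ
        linarith
      by_contra h
      rw [not_le] at h
      have := mul_pos hc3 h
      linarith
    obtain ⟨y', hy1, hy2, hy3⟩ := uv7 a ha1 y hyU hyV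
    by_cases hyc : Ico (L + 1) m \ y' ∈ U
    · -- in Y1
      have hmem : y' ∈ Y1 L m F a := by
        rw [Y1, mem_filter]
        exact ⟨hy1, hyc⟩
      have h1 : v (a + #y') ≤ wY :=
        single_le_sum (f := fun z => v (a + #z)) (fun z _ => nn _) hmem
      linarith
    · have hmem : y' ∈ UU L m F a \ V := by
        rw [mem_sdiff, UU, mem_filter]
        exact ⟨⟨hy1, hyc⟩, hy2⟩
      have h1 : v (a + #y') ≤ wz v a (UU L m F a \ V) :=
        single_le_sum (f := fun z => v (a + #z)) (fun z _ => nn _) hmem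
      have h2 : wz v a (UU L m F a \ V) + wV = wU := by
        rw [hwV, hwU]
        unfold wz
        exact sum_sdiff hVU
      linarith

end MS.H99
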